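import Mathlib

set_option autoImplicit false

namespace Pool.Agent.H.MP_47c171_nt

open Finset

def rs (E : Finset ℕ) : ℚ := ∑ e ∈ E, (1 : ℚ) / e

lemma rs_nonneg (E : Finset ℕ) : 0 ≤ rs E := sum_nonneg fun _ _ => by positivity

lemma rs_union {E F : Finset ℕ} (h : Disjoint E F) : rs (E ∪ F) = rs E + rs F := sum_union h

lemma rs_mul (p : ℕ) (hp : 0 < p) (E : Finset ℕ) : rs (E.image (p * ·)) = rs E / p := by
  rw [rs, rs, sum_image fun a _ b _ h => Nat.eq_of_mul_eq_mul_left hp h, sum_div]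
  refine sum_congr rfl fun e _ => ?_
  push_cast
  rw [div_div, mul_comm]

lemma cp_add {x y : ℚ} {R : ℕ} (hx : x.den.Coprime R) (hy : y.den.Coprime R) :
    (x + y).den.Coprime R :=
  (Nat.Coprime.mul_left hx hy).coprime_dvd_left (Rat.add_den_dvd x y)

lemma cp_sub {x y : ℚ} {R : ℕ} (hx : x.den.Coprime R) (hy : y.den.Coprime R) :
    (x - y).den.Coprime R := by
  rw [sub_eq_add_neg]; exact cp_add hx (by simpa using hy)

lemma dv_add {x y : ℚ} {T : ℕ} (hx : x.den ∣ T) (hy : y.den ∣ T) : (x + y).den ∣ T :=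
  (Rat.add_den_dvd_lcm x y).trans (Nat.lcm_dvd hx hy)

lemma rs_cp {E : Finset ℕ} {R : ℕ} (h : ∀ e ∈ E, e.Coprime R) : (rs E).den.Coprime R := by
  refine sum_induction _ (fun x : ℚ => x.den.Coprime R) (fun _ _ => cp_add) (by simp)
    fun e he => ?_
  rw [one_div, Rat.inv_natCast_den]
  split_ifs
  exacts [by simp, h e he]

lemma rs_dv {E : Finset ℕ} {T : ℕ} (h : ∀ e ∈ E, e ∣ T) : (rs E).den ∣ T := by
  refine sum_induction _ (fun x : ℚ => x.den ∣ T) (fun _ _ => dv_add) (by simp)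
    fun e he => ?_
  rw [one_div, Rat.inv_natCast_den]
  split_ifs
  exacts [by simp, h e he]

lemma den_div (a : ℤ) (b : ℕ) : ((a : ℚ) / b).den ∣ b := by
  have := Rat.den_dvd a b
  rw [Rat.divInt_eq_div] at this
  exact_mod_cast this

lemma eq_div {x : ℚ} {T : ℕ} (hT : 0 < T) (h : x.den ∣ T) : ∃ a : ℤ, x = a / T := by
  obtain ⟨k, rfl⟩ := h
  have : (k : ℚ) ≠ 0 := by exact_mod_cast (Nat.pos_of_mul_pos_left hT).ne'
  refine ⟨x.num * k, ?_⟩
  push_cast
  rw [mul_div_mul_right _ _ this, Rat.num_div_den]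

lemma solve {R : ℕ} (hR : 0 < R) {T : ℤ} (h : IsCoprime T R) (β : ℤ) (A : ℕ) :
    ∃ u : ℕ, A ≤ u ∧ u < A + R ∧ (R : ℤ) ∣ β + u * T := by
  obtain ⟨a, b, hab⟩ := h
  have R0 : (0 : ℤ) < R := by exact_mod_cast hR
  have h1 := Int.emod_nonneg (-β * a - A) R0.ne'
  have h2 := Int.emod_lt_of_pos (-β * a - A) R0
  have h3 := Int.emod_add_mul_ediv (-β * a - A) R
  refine ⟨A + ((-β * a - A) % R).toNat, by omega, by omega,
    β * b - (-β * a - A) / R * T, ?_⟩
  push_cast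
  rw [Int.toNat_of_nonneg h1]
  linear_combination T * h3 - β * hab

lemma ncp {p e : ℕ} (hp : 1 < p) (h : p ∣ e) : ¬e.Coprime p := fun h2 =>
  hp.ne' (Nat.eq_one_of_dvd_coprimes h2 h dvd_rfl)

lemma stage (P : Finset ℕ) (F : ℕ → Prop) (D A W : ℕ) (D0 : 0 < D)
    (cov : ∀ u, A ≤ u → u < A + W → ∃ I : Finset ℕ, (∀ m ∈ I, F m) ∧ rs I = u / D) (x : ℚ) :
    (∀ p ∈ P, p.Prime ∧ p ≤ W ∧ D.Coprime p ∧ (∀ m, F m → m.Coprime p) ∧
      ∃ T, 0 < T ∧ T.Coprime p ∧ x.den ∣ p * T) →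
    ∃ E : Finset ℕ, (∀ e ∈ E, ∃ p ∈ P, ∃ m, F m ∧ e = p * m) ∧
      ∀ p ∈ P, (x + rs E).den.Coprime p := by
  induction P using Finset.induction with
  | empty => exact fun _ => ⟨∅, by simp, by simp⟩
  | insert p P hp ih =>
    intro h
    obtain ⟨E, E1, E2⟩ := ih fun q hq => h q (mem_insert_of_mem hq)
    obtain ⟨pp, pW, pD, pF, T, T0, pT, hx⟩ := h p (mem_insert_self _ _)
    obtain ⟨α, hα⟩ := eq_div (Nat.mul_pos pp.pos T0) hx
    obtain ⟨u, u1, u2, k, hk⟩ := solve pp.pos (T := T) (Nat.isCoprime_iff_coprime.2 pT) (α * D) A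
    obtain ⟨I, I1, I2⟩ := cov u u1 (by omega)
    have ne : ∀ q ∈ P, q.Coprime p := fun q hq =>
      (Nat.coprime_primes (h q (mem_insert_of_mem hq)).1 pp).2 fun e => hp (e ▸ hq)
    have cE : ∀ e ∈ E, e.Coprime p := fun e he => by
      obtain ⟨q, hq, m, hm, rfl⟩ := E1 e he
      exact (ne q hq).mul_left (pF m hm)
    have dj : Disjoint E (I.image (p * ·)) := disjoint_left.2 fun e he h2 => by
      obtain ⟨m, -, rfl⟩ := mem_image.1 h2
      exact ncp pp.one_lt (dvd_mul_right _ _) (cE _ he)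
    refine ⟨E ∪ I.image (p * ·), fun e he => ?_, fun q hq => ?_⟩
    · rcases mem_union.1 he with he | he
      · obtain ⟨q, hq, h2⟩ := E1 e he
        exact ⟨q, mem_insert_of_mem hq, h2⟩
      · obtain ⟨m, hm, rfl⟩ := mem_image.1 he
        exact ⟨p, mem_insert_self _ _, m, I1 m hm, rfl⟩
    · rw [rs_union dj]
      rcases mem_insert.1 hq with rfl | hq
      · rw [add_comm (rs E), ← add_assoc]
        refine cp_add ?_ (rs_cp cE)
        have e : x + rs (I.image (q * ·)) = (k : ℚ) / (T * D : ℕ) := by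
          have q0 : (q : ℚ) ≠ 0 := by exact_mod_cast pp.ne_zero
          have hk' : (α : ℚ) * D + u * T = q * k := by exact_mod_cast hk
          rw [rs_mul _ pp.pos, I2, hα]
          push_cast
          field_simp
          linarith
        rw [e]
        exact (pT.mul_left pD).coprime_dvd_left (den_div _ _)
      · rw [← add_assoc]
        refine cp_add (E2 q hq) (rs_cp fun e he => ?_)
        obtain ⟨m, hm, rfl⟩ := mem_image.1 he
        exact (ne q hq).symm.mul_left ((h q (mem_insert_of_mem hq)).2.2.2.1 m (I1 m hm))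

lemma bin (w : ℕ) : ∀ u : ℕ, u < 2 ^ w → ∃ E : Finset ℕ, (∀ e ∈ E, ∃ t, 1 ≤ t ∧ t ≤ w ∧ e = 2 ^ t) ∧
    rs E = u / 2 ^ w := by
  induction w with
  | zero => intro u hu; exact ⟨∅, by simp, by simp [rs, show u = 0 by omega]⟩
  | succ w ih =>
    intro u hu
    obtain ⟨E, E1, E2⟩ := ih (u / 2) (by omega)
    have E3 : ∀ e ∈ E, ∃ t, 1 ≤ t ∧ t ≤ w + 1 ∧ e = 2 ^ t := fun e he => by
      obtain ⟨t, h1, h2, h3⟩ := E1 e he
      exact ⟨t, h1, by omega, h3⟩
    obtain ⟨k, rfl | rfl⟩ := Nat.even_or_odd' u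
    · refine ⟨E, E3, ?_⟩
      rw [E2, show 2 * k / 2 = k by omega]
      push_cast
      field_simp
      ring
    · have hn : 2 ^ (w + 1) ∉ E := fun h => by
        obtain ⟨t, -, h2, h3⟩ := E1 _ h
        have := Nat.pow_right_injective le_rfl h3
        omega
      refine ⟨insert (2 ^ (w + 1)) E, fun e he => ?_, ?_⟩
      · rcases mem_insert.1 he with rfl | he
        exacts [⟨w + 1, by omega, le_rfl, rfl⟩, E3 e he]
      · rw [rs, sum_insert hn, ← rs, E2, show (2 * k + 1) / 2 = k by omega]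
        push_cast
        field_simp
        ring

lemma binl {l : ℕ} (hl : 0 < l) (w u : ℕ) (hu : u < 2 ^ w) : ∃ E : Finset ℕ,
    (∀ e ∈ E, ∃ t, 1 ≤ t ∧ t ≤ w ∧ e = l * 2 ^ t) ∧ rs E = u / (l * 2 ^ w) := by
  obtain ⟨E, E1, E2⟩ := bin w u hu
  refine ⟨E.image (l * ·), fun e he => ?_, by rw [rs_mul _ hl, E2, div_div, mul_comm]⟩
  obtain ⟨m, hm, rfl⟩ := mem_image.1 he
  obtain ⟨t, h1, h2, rfl⟩ := E1 m hm
  exact ⟨t, h1, h2, rfl⟩

lemma cover (l : ℕ → ℕ) (hl : ∀ i, (l i).Prime ∧ 2 < l i) (inj : Function.Injective l)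
    (w V : ℕ) (hV : V * l 0 ≤ 2 ^ w) (n : ℕ) : (∀ i ≤ n, l i ≤ 2 ^ w) → ∀ u,
    n * ∏ i ∈ range (n + 1), l i ≤ u → u < V * ∏ i ∈ range (n + 1), l i → ∃ E : Finset ℕ,
      (∀ e ∈ E, ∃ i ≤ n, ∃ t ≤ w, e = l i * 2 ^ t) ∧
        rs E = u / ((∏ i ∈ range (n + 1), l i) * 2 ^ w : ℕ) := by
  induction n with
  | zero =>
    intro _ u _ hu
    simp only [zero_add, range_one, prod_singleton] at hu ⊢
    obtain ⟨E, E1, E2⟩ := binl (hl 0).1.pos w u (hu.trans_le hV)
    refine ⟨E, fun e he => ?_, by rw [E2]; push_cast; rfl⟩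
    obtain ⟨t, -, h2, h3⟩ := E1 e he
    exact ⟨0, le_rfl, t, h2, h3⟩
  | succ n ih =>
    intro hw u h1 h2
    rw [prod_range_succ] at h1 h2 ⊢
    have cp : ∀ i ≤ n, (l i).Coprime (l (n + 1)) := fun i hi =>
      (Nat.coprime_primes (hl i).1 (hl _).1).2 fun e => by have := inj e; omega
    have L0 : 0 < ∏ i ∈ range (n + 1), l i := prod_pos fun i _ => (hl i).1.pos
    have cL : (∏ i ∈ range (n + 1), l i).Coprime (l (n + 1)) :=
      Nat.Coprime.prod_left fun i hi => cp i (by have := mem_range.1 hi; omega)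
    have ih' := ih fun i hi => hw i (by omega)
    generalize ∏ i ∈ range (n + 1), l i = L at *
    have q0 := (hl (n + 1)).1.pos
    obtain ⟨a, -, a2, h3⟩ := solve q0 (T := L) (Nat.isCoprime_iff_coprime.2 cL) (-u) 0
    have h5 : a * L ≤ l (n + 1) * L := Nat.mul_le_mul_right _ (by omega)
    have h4 : a * L ≤ u := by nlinarith [Nat.zero_le (n * (L * l (n + 1)))]
    obtain ⟨k, hk⟩ : l (n + 1) ∣ u - a * L := by
      rw [← Int.natCast_dvd_natCast, Nat.cast_sub h4, ← dvd_neg]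
      push_cast
      rwa [neg_sub, sub_eq_neg_add]
    obtain rfl : u = l (n + 1) * k + a * L := by omega
    obtain ⟨E, E1, E2⟩ := ih' k (by
      refine le_of_mul_le_mul_left ?_ q0
      nlinarith) (by
      refine lt_of_mul_lt_mul_left ?_ q0.le
      nlinarith)
    obtain ⟨G, G1, G2⟩ := binl q0 w a (lt_of_lt_of_le (by omega) (hw _ le_rfl))
    have dj : Disjoint E G := disjoint_left.2 fun e he hg => by
      obtain ⟨i, hi, t, -, rfl⟩ := E1 e he
      obtain ⟨s, -, -, h⟩ := G1 _ hg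
      have c2 : (2 ^ t).Coprime (l (n + 1)) := Nat.Coprime.pow_left _
        ((Nat.coprime_primes Nat.prime_two (hl _).1).2 (hl _).2.ne)
      have := (cp i hi).mul_left c2
      rw [h] at this
      exact ncp (hl _).1.one_lt (dvd_mul_right _ _) this
    refine ⟨E ∪ G, fun e he => ?_, ?_⟩
    · rcases mem_union.1 he with he | he
      · obtain ⟨i, hi, h⟩ := E1 e he
        exact ⟨i, by omega, h⟩
      · obtain ⟨t, -, h2, h3⟩ := G1 e he
        exact ⟨n + 1, le_rfl, t, h2, h3⟩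
    · have : (l (n + 1) : ℚ) ≠ 0 := by exact_mod_cast q0.ne'
      have : (L : ℚ) ≠ 0 := by exact_mod_cast L0.ne'
      rw [rs_union dj, E2, G2]
      push_cast
      field_simp

lemma greedy (g : ℕ → ℚ) {δ r : ℚ} (hr : 0 ≤ r) (hg : ∀ i, g i ≤ δ) (k : ℕ) :
    r < ∑ i ∈ range k, g i → ∃ j ≤ k, ∑ i ∈ range j, g i ≤ r ∧ r < ∑ i ∈ range j, g i + δ := by
  induction k with
  | zero => intro h; simp at h; linarith
  | succ k ih =>
    intro h
    rcases lt_or_ge r (∑ i ∈ range k, g i) with h2 | h2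
    · obtain ⟨j, hj, h3⟩ := ih h2
      exact ⟨j, by omega, h3⟩
    · rw [sum_range_succ] at h
      exact ⟨k, by omega, h2, by linarith [hg k]⟩

lemma harm (σ : ℚ) : ∃ k, σ < ∑ i ∈ range k, (1 : ℚ) / (i + 1) := by
  obtain ⟨k, hk⟩ := (Real.tendsto_sum_range_one_div_nat_succ_atTop.eventually_gt_atTop σ).exists
  refine ⟨k, ?_⟩
  rw [← Rat.cast_lt (K := ℝ)]
  push_cast
  exact hk

lemma fin {R B : ℕ} (R0 : 0 < R) (h6 : Nat.Coprime 6 R) (B0 : 0 < B) (hB : B.Coprime R) (σ : ℚ) :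
    ∃ C, 0 < C ∧ C.Coprime R ∧ ∀ (s : ℕ) (r : ℚ), 0 ≤ r → r ≤ σ → r.den ∣ B * 2 ^ s →
      ∃ E : Finset ℕ, rs E = r ∧ ∀ e ∈ E, e ∣ C * 2 ^ s := by
  obtain ⟨k, hk⟩ := harm ((2 * R + 1) * σ)
  have hk2 : σ < ∑ i ∈ range k, (1 : ℚ) / (2 * R * i + 1 : ℕ) := by
    rw [← lt_div_iff₀' (by positivity), sum_div] at hk
    refine hk.trans_le (sum_le_sum fun i _ => ?_)
    rw [div_div]
    refine one_div_le_one_div_of_le (by positivity) ?_
    push_cast
    have : (0 : ℚ) ≤ i := Nat.cast_nonneg _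
    have : (0 : ℚ) ≤ R := Nat.cast_nonneg _
    nlinarith
  obtain ⟨b, hb⟩ : ∃ b, b = 3 * (B * ∏ i ∈ range k, (2 * R * i + 1)) := ⟨_, rfl⟩
  have b0 : 0 < b := by rw [hb]; positivity
  have c2 : Nat.Coprime 2 R := h6.coprime_dvd_left (by norm_num)
  have c3 : Nat.Coprime 3 R := h6.coprime_dvd_left (by norm_num)
  refine ⟨b * 2 ^ b, by positivity, Nat.Coprime.mul_left ?_ (c2.pow_left _), ?_⟩
  · rw [hb]
    refine c3.mul_left (hB.mul_left (Nat.Coprime.prod_left fun i _ => ?_))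
    rw [show 2 * R * i + 1 = 1 + R * (2 * i) by ring]
    simp
  intro s r r0 r1 r2
  obtain ⟨j, hj, j1, j2⟩ := greedy (fun i => (1 : ℚ) / (2 * R * i + 1 : ℕ)) (δ := 1) r0
    (fun i => by rw [div_le_one (by positivity)]; exact_mod_cast Nat.le_add_left _ _) k
    (r1.trans_lt hk2)
  let H := (range j).image fun i => 2 * R * i + 1
  have eH : rs H = ∑ i ∈ range j, (1 : ℚ) / (2 * R * i + 1 : ℕ) :=
    sum_image fun a _ c _ h => Nat.eq_of_mul_eq_mul_left (show 0 < 2 * R by omega) (by omega)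
  rw [← eH] at j1 j2
  have dH : ∀ e ∈ H, e ∣ b := fun e he => by
    obtain ⟨i, hi, rfl⟩ := mem_image.1 he
    rw [hb]
    exact ((dvd_prod_of_mem (fun i => 2 * R * i + 1)
      (mem_range.2 ((mem_range.1 hi).trans_le hj))).mul_left _).mul_left _
  have d1 : (r + -rs H).den ∣ b * 2 ^ s := by
    refine dv_add (r2.trans (Nat.mul_dvd_mul_right ?_ _)) ?_
    · rw [hb]; exact (dvd_mul_right _ _).mul_left _
    · simpa using (rs_dv dH).mul_right _
  obtain ⟨a, ha⟩ := eq_div (by positivity) d1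
  have bq : (0 : ℚ) < b := by exact_mod_cast b0
  push_cast at ha
  have a0 : 0 ≤ a := by
    have : (0 : ℚ) ≤ a / (b * 2 ^ s) := by linarith
    exact_mod_cast (div_nonneg_iff.1 this).elim And.left fun h => absurd h.2 (by
      rw [not_le]; positivity)
  lift a to ℕ using a0
  have a1 : a < b * 2 ^ s := by
    have : ((a : ℤ) : ℚ) / (b * 2 ^ s) < 1 := by linarith
    rw [div_lt_one (by positivity)] at this
    exact_mod_cast this
  obtain ⟨U, U1, U2⟩ := bin (s + b) (a * 2 ^ b / b) (by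
    rw [Nat.div_lt_iff_lt_mul b0, pow_add]
    have : 0 < 2 ^ b := by positivity
    nlinarith)
  obtain ⟨G, G1, G2⟩ := binl b0 (s + b) (a * 2 ^ b % b) ((Nat.mod_lt _ b0).trans
    (Nat.lt_two_pow_self.trans_le (Nat.pow_le_pow_right two_pos (by omega))))
  have ev : ∀ t, 1 ≤ t → 2 ∣ 2 ^ t := fun t ht => dvd_pow_self 2 (by omega)
  have dj1 : Disjoint U G := disjoint_left.2 fun e he hg => by
    obtain ⟨t, -, -, rfl⟩ := U1 e he
    obtain ⟨t', -, -, h⟩ := G1 _ hg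
    have : 3 ∣ 2 ^ t := by rw [h, hb]; exact (dvd_mul_right _ _).mul_right _
    exact absurd (Nat.prime_three.dvd_of_dvd_pow this) (by norm_num)
  have dj2 : Disjoint H (U ∪ G) := disjoint_left.2 fun e he hg => by
    obtain ⟨i, -, rfl⟩ := mem_image.1 he
    have : 2 ∣ 2 * R * i + 1 := by
      rcases mem_union.1 hg with h | h
      · obtain ⟨t, ht, -, h⟩ := U1 _ h
        rw [h]; exact ev t ht
      · obtain ⟨t, ht, -, h⟩ := G1 _ h
        rw [h]; exact (ev t ht).mul_left _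
    rw [mul_assoc] at this
    omega
  refine ⟨H ∪ (U ∪ G), ?_, fun e he => ?_⟩
  · have e : (b : ℚ) * (a * 2 ^ b / b : ℕ) + (a * 2 ^ b % b : ℕ) = a * 2 ^ b := by
      exact_mod_cast Nat.div_add_mod (a * 2 ^ b) b
    rw [rs_union dj2, rs_union dj1, U2, G2, show r = rs H + ((a : ℤ) : ℚ) / (b * 2 ^ s) by linarith]
    congr 1
    rw [pow_add, Int.cast_natCast]
    field_simp
    linarith
  · rw [mul_assoc, ← pow_add, add_comm]
    rcases mem_union.1 he with h | h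
    · exact (dH e h).mul_right _
    rcases mem_union.1 h with h | h
    · obtain ⟨t, -, ht, rfl⟩ := U1 _ h
      exact (pow_dvd_pow 2 ht).mul_left _
    · obtain ⟨t, -, ht, rfl⟩ := G1 _ h
      exact Nat.mul_dvd_mul_left _ (pow_dvd_pow 2 ht)

end Pool.Agent.H.MP_47c171_nt
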