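import Pool.Agent.H.MP_47c171_nt.A

set_option autoImplicit false

namespace Pool.Agent.H.MP_47c171_nt

open Finset

lemma primes_ex (M : ℕ) {δ : ℚ} (hδ : 0 < δ) (hM : 1 / (M + 1 : ℚ) ≤ δ) : ∃ S : Finset ℕ,
    (∀ q ∈ S, q.Prime ∧ M < q) ∧ δ < rs S ∧ rs S ≤ 2 * δ := by
  classical
  let g : ℕ → ℚ := fun i => if i.Prime ∧ M < i then 1 / i else 0
  have hk : ∃ k, 2 * δ < ∑ i ∈ range k, g i := by
    by_contra! hc
    refine not_summable_one_div_on_primes (summable_of_sum_range_le (c := 2 * δ + (M + 1))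
      (fun n => Set.indicator_nonneg (fun _ _ => by positivity) _) fun k => ?_)
    have h1 : ∀ i : ℕ, Set.indicator {p : ℕ | p.Prime} (fun n : ℕ => (1 : ℝ) / n) i ≤
        (g i : ℝ) + if i ∈ range (M + 1) then 1 else 0 := by
      intro i
      by_cases hp : i.Prime
      · have : (1 : ℝ) / i ≤ 1 := by
          rw [div_le_one (by exact_mod_cast hp.pos)]; exact_mod_cast hp.pos
        by_cases h : M < i
        · simp [g, hp, h]
          positivity
        · simpa [g, hp, h, Nat.lt_succ_iff, not_lt.1 h] using this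
      · simp only [g, hp, Set.indicator, Set.mem_ofPred_eq, false_and, if_false]
        split_ifs <;> simp
    refine (sum_le_sum fun i _ => h1 i).trans ?_
    rw [sum_add_distrib]
    refine add_le_add (by exact_mod_cast hc k) ?_
    rw [sum_ite_mem, sum_const, nsmul_eq_mul, mul_one]
    exact_mod_cast (card_le_card inter_subset_right).trans (card_range _).le
  obtain ⟨k, hk⟩ := hk
  obtain ⟨j, -, j1, j2⟩ := greedy g (δ := δ) (by positivity) (fun i => by
    simp only [g]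
    split_ifs with h
    · exact le_trans (one_div_le_one_div_of_le (by positivity) (by exact_mod_cast h.2)) hM
    · exact hδ.le) k hk
  have e : rs ((range j).filter fun i => i.Prime ∧ M < i) = ∑ i ∈ range j, g i := sum_filter _ _
  exact ⟨(range j).filter fun i => i.Prime ∧ M < i, fun q hq => (mem_filter.1 hq).2,
    by linarith, by linarith⟩

lemma qlem (K : ℕ) (hK : 0 < K) (σ : ℚ) : ∃ S Q : Finset ℕ, (∀ q ∈ S, q.Prime ∧ K < q) ∧
    rs S ≤ 1 / K ∧ (∀ n ∈ Q, 0 < n ∧ ∃ q ∈ S, q ∣ n) ∧ σ ≤ rs Q ∧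
    (rs Q).den.Coprime (∏ q ∈ S, q) ∧
    ∀ Q' ⊆ Q, (rs Q').den.Coprime (∏ q ∈ S, q) → Q' = ∅ ∨ Q' = Q := by
  classical
  have K0 : (0 : ℚ) < K := by exact_mod_cast hK
  obtain ⟨t, ht⟩ := harm (2 * K * |σ|)
  have t0 : 0 < t := Nat.pos_of_ne_zero fun h => by
    rw [h, sum_range_zero] at ht
    exact absurd ht (not_lt.2 (by positivity))
  obtain ⟨S, S1, S2, S3⟩ := primes_ex (2 * K + t * t.factorial) (δ := 1 / (2 * K))
    (by positivity) (one_div_le_one_div_of_le (by positivity) (by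
      push_cast
      have : (0 : ℚ) ≤ t * t.factorial := by positivity
      linarith))
  have L0 := t.factorial_pos
  have tL : t ≤ t * t.factorial := Nat.le_mul_of_pos_right _ L0
  have cL : ∀ q ∈ S, ¬q ∣ t.factorial := fun q hq h => by
    have := (S1 q hq).1.dvd_factorial.1 h
    have := (S1 q hq).2
    omega
  have mL : ∀ m ∈ Icc 1 t, m ∣ t.factorial := fun m hm =>
    Nat.dvd_factorial (mem_Icc.1 hm).1 (mem_Icc.1 hm).2
  have hL : ∀ q ∈ S, t * t.factorial < q := fun q hq => by have := (S1 q hq).2; omega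
  generalize t.factorial = L at *
  let Q0 := (S ×ˢ Icc 1 t).image fun x => x.1 * x.2
  have key : ∀ q ∈ S, ∀ q' ∈ S, ∀ m ∈ Icc 1 t, q ∣ q' * m → q = q' := by
    intro q hq q' hq' m hm h
    rcases (S1 q hq).1.dvd_mul.1 h with h | h
    · exact (Nat.prime_dvd_prime_iff_eq (S1 q hq).1 (S1 q' hq').1).1 h
    · exact absurd (h.trans (mL m hm)) (cL q hq)
  have free : ∀ Q' ⊆ Q0, ∀ q ∈ S, (∃ e ∈ Q', q ∣ e) → ¬(rs Q').den.Coprime q := by
    rintro Q' hQ q hq ⟨e, he, hqe⟩ hc
    have pq := (S1 q hq).1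
    have h1 : (rs (Q'.filter (q ∣ ·))).den.Coprime q := by
      have := cp_sub hc (rs_cp (E := Q'.filter fun e => ¬q ∣ e) fun e he =>
        (pq.coprime_iff_not_dvd.2 (mem_filter.1 he).2).symm)
      rwa [rs, ← sum_filter_add_sum_filter_not Q' (q ∣ ·), rs, add_sub_cancel_right] at this
    have h2 : Q'.filter (q ∣ ·) ⊆ (Icc 1 t).image (q * ·) := fun e he => by
      obtain ⟨⟨q', m⟩, h, rfl⟩ := mem_image.1 (hQ (mem_filter.1 he).1)
      obtain rfl := key q hq q' (mem_product.1 h).1 m (mem_product.1 h).2 (mem_filter.1 he).2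
      exact mem_image_of_mem _ (mem_product.1 h).2
    obtain ⟨I, hI, hI2⟩ := subset_image_iff.1 h2
    have ne : I.Nonempty := by
      rw [← image_nonempty (f := (q * ·)), hI2]; exact ⟨e, mem_filter.2 ⟨he, hqe⟩⟩
    have e1 : rs I = (∑ m ∈ I, L / m : ℕ) / L := by
      rw [rs, Nat.cast_sum, sum_div]
      refine sum_congr rfl fun m hm => ?_
      have : (m : ℚ) ≠ 0 := by exact_mod_cast (Nat.pos_iff_ne_zero.1 (mem_Icc.1 (hI hm)).1)
      have : (L : ℚ) ≠ 0 := by exact_mod_cast L0.ne'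
      rw [Nat.cast_div (mL m (hI hm)) ‹_›]
      field_simp
    have w0 : 0 < ∑ m ∈ I, L / m := sum_pos (fun m hm =>
      Nat.div_pos (Nat.le_of_dvd L0 (mL m (hI hm))) (mem_Icc.1 (hI hm)).1) ne
    have w1 : ∑ m ∈ I, L / m ≤ t * L :=
      (sum_le_card_nsmul _ _ L fun m _ => Nat.div_le_self _ _).trans
        (Nat.mul_le_mul_right _ ((card_le_card hI).trans (by simp)))
    generalize ∑ m ∈ I, L / m = w at *
    rw [← hI2, rs_mul _ pq.pos, e1] at h1
    have e2 := Rat.mul_den_eq_num ((w : ℚ) / L / q)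
    generalize ((w : ℚ) / L / q).den = d at *
    generalize ((w : ℚ) / L / q).num = a at *
    have : (L : ℚ) ≠ 0 := by exact_mod_cast L0.ne'
    have : (q : ℚ) ≠ 0 := by exact_mod_cast pq.ne_zero
    have e3 : (w * d : ℕ) = (q : ℤ) * (L * a) := by
      have : (w : ℚ) * d = q * (L * a) := by rw [← e2]; field_simp
      exact_mod_cast this
    have := h1.symm.dvd_of_dvd_mul_right (Int.natCast_dvd_natCast.1 (Dvd.intro _ e3.symm))
    have := Nat.le_of_dvd w0 this
    have := hL q hq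
    omega
  have R0 : 0 < ∏ q ∈ S, q := prod_pos fun q hq => (S1 q hq).1.pos
  have qR : ∀ q ∈ S, q ∣ ∏ q ∈ S, q := fun q hq => dvd_prod_of_mem _ hq
  obtain ⟨u, hu⟩ := eq_div (Nat.mul_pos R0 L0) (rs_dv (E := Q0) fun e he => by
    obtain ⟨⟨q, m⟩, h, rfl⟩ := mem_image.1 he
    exact Nat.mul_dvd_mul (qR q (mem_product.1 h).1) (mL m (mem_product.1 h).2))
  have cu : IsCoprime u (∏ q ∈ S, q : ℕ) := by
    push_cast
    refine IsCoprime.prod_right fun q hq => ((Nat.prime_iff_prime_int.1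
      (S1 q hq).1).coprime_iff_not_dvd.2 ?_).symm
    rintro ⟨k, rfl⟩
    refine free Q0 subset_rfl q hq ⟨q * 1, mem_image.2 ⟨(q, 1), by simp [hq]; omega, rfl⟩,
      dvd_mul_right _ _⟩ ?_
    have : (q : ℚ) ≠ 0 := by exact_mod_cast (S1 q hq).1.ne_zero
    have e : rs Q0 = (k : ℚ) / ((∏ q' ∈ S.erase q, q') * L : ℕ) := by
      rw [hu, ← mul_prod_erase S (fun q => q) hq]
      push_cast
      rw [mul_assoc, mul_div_mul_left _ _ this]
    rw [e]
    refine Nat.Coprime.coprime_dvd_left (den_div _ _) (Nat.Coprime.mul_left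
      (Nat.Coprime.prod_left fun q' hq' => ?_) ((S1 q hq).1.coprime_iff_not_dvd.2 (cL q hq)).symm)
    exact (Nat.coprime_primes (S1 q' (mem_of_mem_erase hq')).1 (S1 q hq).1).2 (ne_of_mem_erase hq')
  obtain ⟨m, m1, -, k, hk⟩ := solve R0 cu L (t + 1)
  have cm : (L * m).Coprime (∏ q ∈ S, q) := Nat.Coprime.prod_right fun q hq => by
    refine ((S1 q hq).1.coprime_iff_not_dvd.2 fun h => cL q hq ?_).symm
    refine ((S1 q hq).1.dvd_mul.1 h).elim id fun h => ?_
    have h1 : (q : ℤ) ∣ L + m * u := hk ▸ (Int.natCast_dvd_natCast.2 (qR q hq)).mul_right _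
    exact Int.natCast_dvd_natCast.1
      ((dvd_add_left ((Int.natCast_dvd_natCast.2 h).mul_right u)).1 h1)
  have Sne : S.Nonempty := nonempty_iff_ne_empty.2 fun h => by
    rw [h, rs, sum_empty] at S2
    exact absurd S2 (not_lt.2 (by positivity))
  have sz : rs Q0 = rs S * ∑ i ∈ range t, (1 : ℚ) / (i + 1) := by
    rw [rs, sum_image, sum_product, rs, sum_mul_sum]
    · refine sum_congr rfl fun q _ => ?_
      rw [← Ico_add_one_right_eq_Icc, sum_Ico_eq_sum_range, Nat.add_sub_cancel]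
      refine sum_congr rfl fun m _ => ?_
      push_cast
      rw [one_div_mul_one_div, add_comm]
    · rintro ⟨q, a⟩ h ⟨q', b⟩ h' e
      have h := mem_product.1 h
      have h' := mem_product.1 h'
      obtain rfl := key q h.1 q' h'.1 b h'.2 (Dvd.intro _ e)
      exact congrArg (Prod.mk q) (Nat.eq_of_mul_eq_mul_left (S1 q h.1).1.pos e)
  generalize hR : ∏ q ∈ S, q = R at *
  have hn : R * m ∉ Q0 := fun h => by
    obtain ⟨⟨q, a⟩, h, e⟩ := mem_image.1 h
    have h1 := Nat.le_of_dvd R0 (qR q (mem_product.1 h).1)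
    have h2 := (mem_Icc.1 (mem_product.1 h).2).2
    have := Nat.mul_le_mul h1 h2
    simp only at e this
    nlinarith
  have tot : (rs (insert (R * m) Q0)).den.Coprime R := by
    have e : rs (insert (R * m) Q0) = (k : ℚ) / (L * m : ℕ) := by
      have : (L : ℚ) ≠ 0 := by exact_mod_cast L0.ne'
      have : (R : ℚ) ≠ 0 := by exact_mod_cast R0.ne'
      have : (m : ℚ) ≠ 0 := by exact_mod_cast (by omega : m ≠ 0)
      have hk' : (L : ℚ) + m * u = R * k := by exact_mod_cast hk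
      rw [rs, sum_insert hn, ← rs, hu]
      push_cast
      field_simp
      linarith
    rw [e]
    exact cm.coprime_dvd_left (den_div _ _)
  have emp : ∀ Q' ⊆ Q0, (rs Q').den.Coprime R → Q' = ∅ := fun Q' hQ hc =>
    eq_empty_of_forall_notMem fun e he => by
      obtain ⟨⟨q, a⟩, h, rfl⟩ := mem_image.1 (hQ he)
      exact free Q' hQ q (mem_product.1 h).1 ⟨_, he, dvd_mul_right _ _⟩
        (hc.coprime_dvd_right (qR q (mem_product.1 h).1))
  refine ⟨S, insert (R * m) Q0, fun q hq => ⟨(S1 q hq).1, by have := (S1 q hq).2; omega⟩,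
    S3.trans (le_of_eq (by field_simp)), fun n hn => ?_, ?_, ?_, ?_⟩
  · rcases mem_insert.1 hn with rfl | h0
    · obtain ⟨q, hq⟩ := Sne
      exact ⟨Nat.mul_pos R0 (by omega), q, hq, (qR q hq).mul_right _⟩
    · obtain ⟨⟨q, a⟩, h1, rfl⟩ := mem_image.1 h0
      have h := mem_product.1 h1
      exact ⟨Nat.mul_pos (S1 q h.1).1.pos (mem_Icc.1 h.2).1, q, h.1, dvd_mul_right _ _⟩
  · rw [rs, sum_insert hn, ← rs, sz]
    have h1 : |σ| = 1 / (2 * K) * (2 * K * |σ|) := by field_simp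
    have h2 := mul_le_mul S2.le ht.le (by positivity) (rs_nonneg S)
    have h3 : (0 : ℚ) ≤ 1 / (R * m : ℕ) := by positivity
    linarith [le_abs_self σ]
  · rwa [hR]
  · rw [hR]
    intro Q' hQ hc
    by_cases h : R * m ∈ Q'
    · right
      have e : rs (insert (R * m) Q0 \ Q') = rs (insert (R * m) Q0) - rs Q' := sum_sdiff_eq_sub hQ
      have := emp (insert (R * m) Q0 \ Q') (fun e he => (mem_insert.1 (mem_sdiff.1 he).1).resolve_left
        fun h2 => (mem_sdiff.1 he).2 (h2 ▸ h)) (e ▸ cp_sub tot hc)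
      exact subset_antisymm hQ (sdiff_eq_empty_iff_subset.1 this)
    · exact Or.inl (emp Q' ((subset_insert_iff_of_notMem h).1 hQ) hc)

end Pool.Agent.H.MP_47c171_nt
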