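import Pool.Agent.H.MP_47c171_nt.B

set_option autoImplicit false

namespace Pool.Agent.H.MP_47c171_nt

open Finset

lemma hlog {Y e : ℕ} (h : Y ≤ 2 ^ e) : ∑ m ∈ Icc 1 Y, (1 : ℚ) / m ≤ 1 + e := by
  have h1 := harmonic_le_one_add_log Y
  have h2 : Real.log Y ≤ e := by
    rcases Nat.eq_zero_or_pos Y with rfl | hY
    · simp
    · have l : Real.log 2 ≤ 1 := by
        have := Real.log_le_sub_one_of_pos (x := 2) two_pos; linarith
      have := Real.log_le_log (x := Y) (y := 2 ^ e) (by exact_mod_cast hY) (by exact_mod_cast h)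
      rw [Real.log_pow] at this
      nlinarith [(Nat.cast_nonneg e : (0 : ℝ) ≤ e)]
  have h3 : ((harmonic Y : ℚ) : ℝ) ≤ ((1 + e : ℚ) : ℝ) := by push_cast; linarith
  simpa only [harmonic_eq_sum_Icc, one_div] using Rat.cast_le.1 h3

lemma pcount {x y g : ℕ} (h : 2 ^ g ≤ y) : g * ((Ioc y x).filter Nat.Prime).card ≤ 2 * x := by
  have h1 : (2 ^ g) ^ ((Ioc y x).filter Nat.Prime).card ≤ ∏ p ∈ (Ioc y x).filter Nat.Prime, p :=
    pow_card_le_prod _ _ _ fun p hp => h.trans (mem_Ioc.1 (mem_filter.1 hp).1).1.le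
  have h2 : ∏ p ∈ (Ioc y x).filter Nat.Prime, p ≤ primorial x :=
    prod_le_prod_of_subset_of_one_le' (fun p hp => by
      simp only [mem_filter, mem_Ioc, mem_range] at hp ⊢
      exact ⟨by omega, hp.2⟩) fun p hp _ => (mem_filter.1 hp).2.pos
  have h3 := (h1.trans h2).trans (primorial_le_four_pow x)
  rw [← pow_mul, show 4 = 2 ^ 2 by rfl, ← pow_mul] at h3
  exact (Nat.pow_le_pow_iff_right one_lt_two).1 h3

open Classical in
noncomputable def PP (K N y : ℕ) (S : Finset ℕ) : Finset ℕ :=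
  (Ioc 0 N).filter fun n => N < K * n ∧ (∀ q ∈ S, ¬q ∣ n) ∧ (∀ p, p.Prime → p ∣ n → p ≤ y) ∧
    ∀ d, K < d → ¬d ^ 2 ∣ n

lemma count {K N e g : ℕ} {S : Finset ℕ} (hK : 0 < K) (KN : K ≤ N) (hS : rs S ≤ 1 / K)
    (h1 : 2 ^ (g + e) ≤ N) (g0 : 0 < g) (h2 : 2 * (1 + e) * K ≤ g) :
    (N : ℚ) ≤ (PP K N (N / 2 ^ e) S).card + 4 * (N / K) := by
  classical
  have K0 : (0 : ℚ) < K := by exact_mod_cast hK
  have N0 : (0 : ℚ) ≤ N := Nat.cast_nonneg _
  have sub : Ioc 0 N ⊆ PP K N (N / 2 ^ e) S ∪ (Ioc 0 (N / K) ∪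
      ((S.biUnion fun q => (Ioc 0 N).filter (q ∣ ·)) ∪
      (((Icc 1 (2 ^ e)).biUnion fun m =>
        ((Ioc (N / 2 ^ e) (N / m)).filter Nat.Prime).image (· * m)) ∪
      (Ioc K N).biUnion fun d => (Ioc 0 N).filter (d ^ 2 ∣ ·)))) := by
    intro n hn
    have hn' := mem_Ioc.1 hn
    by_cases h : n ∈ PP K N (N / 2 ^ e) S
    · exact mem_union_left _ h
    refine mem_union_right _ ?_
    simp only [PP, mem_filter, hn, true_and, not_and_or, not_forall, not_not, not_lt, not_le] at h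
    rcases h with h | ⟨q, hq, h⟩ | ⟨p, hp, ⟨m, rfl⟩, h⟩ | ⟨d, hd, h⟩
    · exact mem_union_left _ (mem_Ioc.2 ⟨hn'.1, (Nat.le_div_iff_mul_le hK).2 (by linarith)⟩)
    · exact mem_union_right _ (mem_union_left _ (mem_biUnion.2 ⟨q, hq, mem_filter.2 ⟨hn, h⟩⟩))
    · have m0 : 0 < m := Nat.pos_of_mul_pos_left hn'.1
      refine mem_union_right _ (mem_union_right _ (mem_union_left _ (mem_biUnion.2
        ⟨m, mem_Icc.2 ⟨m0, ?_⟩, mem_image_of_mem _ (mem_filter.2 ⟨mem_Ioc.2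
          ⟨h, (Nat.le_div_iff_mul_le m0).2 hn'.2⟩, hp⟩)⟩)))
      rw [Nat.div_lt_iff_lt_mul (by positivity)] at h
      exact (lt_of_mul_lt_mul_left (hn'.2.trans_lt h) p.zero_le).le
    · refine mem_union_right _ (mem_union_right _ (mem_union_right _ (mem_biUnion.2
        ⟨d, mem_Ioc.2 ⟨hd, ?_⟩, mem_filter.2 ⟨hn, h⟩⟩)))
      have := Nat.le_of_dvd hn'.1 h
      nlinarith
  have c0 : ((Ioc 0 (N / K)).card : ℚ) ≤ N / K := by simpa using Nat.cast_div_le
  have c1 : ((S.biUnion fun q => (Ioc 0 N).filter (q ∣ ·)).card : ℚ) ≤ N / K := by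
    refine ((Nat.cast_le.2 card_biUnion_le).trans ?_).trans
      ((mul_le_mul_of_nonneg_left hS N0).trans (le_of_eq (by ring)))
    rw [Nat.cast_sum, rs, mul_sum]
    refine sum_le_sum fun q _ => ?_
    rw [Nat.Ioc_filter_dvd_card_eq_div, mul_one_div]
    exact Nat.cast_div_le
  have c2 : (((Icc 1 (2 ^ e)).biUnion fun m =>
      ((Ioc (N / 2 ^ e) (N / m)).filter Nat.Prime).image (· * m)).card : ℚ) ≤ N / K := by
    have gq : (0 : ℚ) < g := by exact_mod_cast g0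
    have hy : 2 ^ g ≤ N / 2 ^ e := (Nat.le_div_iff_mul_le (by positivity)).2 (by rwa [← pow_add])
    refine (Nat.cast_le.2 card_biUnion_le).trans ?_
    rw [Nat.cast_sum]
    refine (sum_le_sum (g := fun m : ℕ => 2 * N / g * ((1 : ℚ) / m)) fun m _ => ?_).trans ?_
    · refine (Nat.cast_le.2 card_image_le).trans ?_
      have a : ((g * ((Ioc (N / 2 ^ e) (N / m)).filter Nat.Prime).card : ℕ) : ℚ) ≤
        (2 * (N / m) : ℕ) := Nat.cast_le.2 (pcount hy)
      have b : ((N / m : ℕ) : ℚ) ≤ N / m := Nat.cast_div_le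
      rw [Nat.cast_mul, Nat.cast_mul, Nat.cast_ofNat] at a
      rw [div_mul_eq_mul_div, le_div_iff₀ gq, mul_one_div, mul_div_assoc]
      linarith
    · rw [← mul_sum]
      refine (mul_le_mul_of_nonneg_left (hlog le_rfl) (by positivity)).trans ?_
      have : 2 * (1 + (e : ℚ)) * K ≤ g := by exact_mod_cast h2
      rw [div_mul_eq_mul_div, div_le_div_iff₀ gq K0]
      nlinarith
  have c3 : (((Ioc K N).biUnion fun d => (Ioc 0 N).filter (d ^ 2 ∣ ·)).card : ℚ) ≤ N / K := by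
    refine (Nat.cast_le.2 card_biUnion_le).trans ?_
    rw [Nat.cast_sum]
    refine (sum_le_sum (g := fun d : ℕ => N * ((d : ℚ) ^ 2)⁻¹) fun d _ => ?_).trans ?_
    · rw [Nat.Ioc_filter_dvd_card_eq_div]
      exact Nat.cast_div_le.trans (by push_cast; rfl)
    · rw [← mul_sum, div_eq_mul_inv]
      refine mul_le_mul_of_nonneg_left ((sum_Ioc_inv_sq_le_sub hK.ne' KN).trans ?_) N0
      simp
  have := (card_le_card sub).trans ((card_union_le _ _).trans (add_le_add_right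
    ((card_union_le _ _).trans (add_le_add_right ((card_union_le _ _).trans
      (add_le_add_right (card_union_le _ _) _)) _)) _))
  have := (Nat.cast_le (α := ℚ)).2 this
  rw [Nat.card_Ioc, Nat.sub_zero, Nat.cast_add, Nat.cast_add, Nat.cast_add, Nat.cast_add] at this
  linarith

def Adm (A : Finset ℕ) : Prop := ∃ δ : ℕ → ℤ, (∀ n ∈ A, δ n = 1 ∨ δ n = -1) ∧
  ∑ n ∈ A, (δ n : ℚ) / n = 0 ∧
    ∀ A' ⊆ A, A'.Nonempty → A' ≠ A → ∑ n ∈ A', (δ n : ℚ) / n ≠ 0

lemma rs_zero {E : Finset ℕ} (h : ∀ e ∈ E, 0 < e) (h0 : rs E = 0) : E = ∅ := by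
  by_contra hn
  exact (sum_pos (fun e he => by have := h e he; positivity) (nonempty_iff_ne_empty.2 hn)).ne' h0

lemma adm {P Q : Finset ℕ} {R : ℕ} (hd : Disjoint P Q) (hP : ∀ e ∈ P, 0 < e ∧ e.Coprime R)
    (e : rs P = rs Q) (hQ : ∀ Q' ⊆ Q, (rs Q').den.Coprime R → Q' = ∅ ∨ Q' = Q) :
    Adm (P ∪ Q) := by
  have key : ∀ A : Finset ℕ, ∑ n ∈ A, (((if n ∈ Q then -1 else 1 : ℤ) : ℤ) : ℚ) / n =
      rs (A \ Q) - rs (A ∩ Q) := fun A => by
    rw [← sum_inter_add_sum_sdiff A Q, rs, rs, sub_eq_neg_add, ← sum_neg_distrib]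
    congr 1
    · exact sum_congr rfl fun n hn => by simp [(mem_inter.1 hn).2, neg_div]
    · exact sum_congr rfl fun n hn => by simp [(mem_sdiff.1 hn).2]
  refine ⟨fun n => if n ∈ Q then -1 else 1, fun n _ => by by_cases h : n ∈ Q <;> simp [h], ?_,
    fun A hA h1 h2 h3 => ?_⟩
  · rw [key, union_sdiff_cancel_right hd, union_inter_cancel_right, e, sub_self]
  · rw [key, sub_eq_zero] at h3
    have s : A \ Q ⊆ P := fun n hn =>
      (mem_union.1 (hA (mem_sdiff.1 hn).1)).resolve_right (mem_sdiff.1 hn).2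
    rcases hQ _ inter_subset_right (h3 ▸ rs_cp fun n hn => (hP n (s hn)).2) with h | h
    · rw [h] at h3
      have := rs_zero (fun n hn => (hP n (s hn)).1) h3
      rw [← sdiff_union_inter A Q, this, h] at h1
      simp at h1
    · have e2 : rs (P \ (A \ Q)) = rs P - rs (A \ Q) := sum_sdiff_eq_sub s
      rw [h3, h, e, sub_self] at e2
      have := sdiff_eq_empty_iff_subset.1 (rs_zero (fun n hn => (hP n (mem_sdiff.1 hn).1).1) e2)
      exact h2 (by rw [← sdiff_union_inter A Q, h, subset_antisymm s this])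

end Pool.Agent.H.MP_47c171_nt
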