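import Pool.Agent.H.MP_47c171_nt.C

set_option autoImplicit false

namespace Pool.Agent.H.MP_47c171_nt

open Finset

def T1 (K N : ℕ) : ℕ := ∏ p ∈ (Ioc K N).filter Nat.Prime, p

lemma dvd_T1 {K N p : ℕ} (hp : p.Prime) (h1 : K < p) (h2 : p ≤ N) : p ∣ T1 K N :=
  dvd_prod_of_mem _ (mem_filter.2 ⟨mem_Ioc.2 ⟨h1, h2⟩, hp⟩)

lemma cp_fac {K p : ℕ} (hp : p.Prime) (h1 : K < p) : K.factorial.Coprime p :=
  (hp.coprime_iff_not_dvd.2 fun h => absurd (hp.dvd_factorial.1 h) (by omega)).symm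

lemma cp_two {p : ℕ} (hp : p.Prime) (h1 : 2 < p) (t : ℕ) : (2 ^ t).Coprime p :=
  ((Nat.coprime_primes Nat.prime_two hp).2 h1.ne).pow_left _

lemma Tsplit {K N p : ℕ} (w : ℕ) (hK : 2 ≤ K) (hp : p.Prime) (h1 : K < p) (h2 : p ≤ N) {x : ℚ}
    (hx : x.den ∣ K.factorial ^ 3 * 2 ^ w * T1 K N) : ∃ T, 0 < T ∧ T.Coprime p ∧ x.den ∣ p * T := by
  have := K.factorial_pos
  refine ⟨K.factorial ^ 3 * 2 ^ w * ∏ q ∈ ((Ioc K N).filter Nat.Prime).erase p, q,
    Nat.mul_pos (by positivity) (prod_pos fun q hq => (mem_filter.1 (mem_of_mem_erase hq)).2.pos),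
    (((cp_fac hp h1).pow_left _).mul_left (cp_two hp (by omega) _)).mul_left
      (Nat.Coprime.prod_left fun q hq => (Nat.coprime_primes
        (mem_filter.1 (mem_of_mem_erase hq)).2 hp).2 (ne_of_mem_erase hq)), ?_⟩
  rw [mul_left_comm, mul_prod_erase _ (fun q => q) (mem_filter.2 ⟨mem_Ioc.2 ⟨h1, h2⟩, hp⟩)]
  exact hx

lemma PP_dvd {K N y n : ℕ} {S : Finset ℕ} (w : ℕ) (h : n ∈ PP K N y S) :
    n ∣ K.factorial ^ 3 * 2 ^ w * T1 K N := by
  simp only [PP, mem_filter, mem_Ioc] at h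
  obtain ⟨⟨n0, nN⟩, -, -, -, h⟩ := h
  obtain ⟨a, b, a0, b0, rfl, ha⟩ := Nat.sq_mul_squarefree_of_pos n0
  have hb : b ∣ K.factorial := Nat.dvd_factorial b0 (not_lt.1 fun hb => h b hb (dvd_mul_right _ _))
  have h2 : a ∣ K.factorial * T1 K N := by
    rw [← Nat.prod_primeFactors_of_squarefree ha]
    refine prod_primes_dvd _ (fun p hp => (Nat.prime_of_mem_primeFactors hp).prime) fun p hp => ?_
    have pp := Nat.prime_of_mem_primeFactors hp
    rcases le_or_gt p K with h | h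
    · exact (pp.dvd_factorial.2 h).mul_right _
    · exact (dvd_T1 pp h ((Nat.le_of_dvd n0
        ((Nat.dvd_of_mem_primeFactors hp).mul_left _)).trans nN)).mul_left _
  refine (Nat.mul_dvd_mul (pow_dvd_pow_of_dvd hb 2) h2).trans ⟨2 ^ w, by ring⟩

lemma main (K : ℕ) (hK : 3 ≤ K) : ∃ N₀, ∀ N ≥ N₀, ∃ A ⊆ Icc 1 N, Adm A ∧
    (N : ℚ) ≤ A.card + 4 * (N / K) := by
  classical
  obtain ⟨n, hn⟩ : ∃ n, n = 14 * K + 10 := ⟨_, rfl⟩
  obtain ⟨S, Q, S1, S2, Q1, Q2, Q3, Q4⟩ := qlem K (by omega) (K + (n + 1) * (n + 2))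
  have R0 : 0 < ∏ q ∈ S, q := prod_pos fun q hq => (S1 q hq).1.pos
  have qR : ∀ q ∈ S, q ≤ ∏ q ∈ S, q := fun q hq => Nat.le_of_dvd R0 (dvd_prod_of_mem _ hq)
  have cR : ∀ e : ℕ, (∀ q ∈ S, e.Coprime q) → e.Coprime (∏ q ∈ S, q) :=
    fun e h => Nat.Coprime.prod_right h
  have Rq : ∀ q ∈ S, q ∣ ∏ q ∈ S, q := fun q hq => dvd_prod_of_mem _ hq
  generalize ∏ q ∈ S, q = R at *
  have fK := K.factorial_pos
  obtain ⟨C, C0, C1, C2⟩ := fin (B := (rs Q).den * K.factorial ^ 3) R0 (cR 6 fun q hq =>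
    (cp_fac (K := 3) (S1 q hq).1 (by have := (S1 q hq).2; omega)))
    (Nat.mul_pos (rs Q).den_pos (by positivity))
    (Q3.mul_left (cR _ fun q hq => (cp_fac (S1 q hq).1 (S1 q hq).2).pow_left _)) (rs Q)
  refine ⟨2 ^ ((R + C + K + 2 * n + 5) * (n + 1)) + Q.sup id, fun N hN => ?_⟩
  obtain ⟨v, v0, v1, v2⟩ : ∃ v, R + C + K + 2 * n + 5 ≤ v ∧ 2 ^ (v * (n + 1)) ≤ N ∧
      N ≤ 2 ^ ((v + 1) * (n + 1)) := by
    have N0 : N ≠ 0 := by have : 0 < 2 ^ ((R + C + K + 2 * n + 5) * (n + 1)) := by positivity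
                          omega
    refine ⟨Nat.log 2 N / (n + 1), (Nat.le_div_iff_mul_le n.succ_pos).2
      (Nat.le_log_of_pow_le one_lt_two ((Nat.le_add_right _ _).trans hN)), (Nat.pow_le_pow_right two_pos
        (Nat.div_mul_le_self _ _)).trans (Nat.pow_log_le_self 2 N0),
      (Nat.lt_pow_succ_log_self one_lt_two N).le.trans (Nat.pow_le_pow_right two_pos ?_)⟩
    have := Nat.lt_div_mul_add (a := Nat.log 2 N) n.succ_pos
    rw [add_mul, one_mul]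
    exact this
  choose l l1 l2 l3 using fun i => Nat.exists_prime_lt_and_le_two_mul (2 ^ (v + 1 + i))
    (by positivity)
  have vv := Nat.lt_two_pow_self (n := v + 1)
  have l4 : ∀ i, 2 ^ (v + 1) < l i := fun i =>
    (Nat.pow_le_pow_right two_pos (by omega)).trans_lt (l2 i)
  have inj : Function.Injective l := (strictMono_nat_of_lt_succ fun i =>
    ((l3 i).trans_eq (pow_succ' _ _).symm).trans_lt (l2 (i + 1))).injective
  obtain ⟨w, hw⟩ : ∃ w, w = v + n + 2 := ⟨_, rfl⟩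
  have lw : ∀ i ≤ n, l i ≤ 2 ^ w := fun i hi => ((l3 i).trans_eq (pow_succ' _ _).symm).trans
    (Nat.pow_le_pow_right two_pos (by omega))
  obtain ⟨e, he⟩ : ∃ e, e = K + 2 * w := ⟨_, rfl⟩
  obtain ⟨g, hg, g1⟩ : ∃ g, g + e = v * (n + 1) ∧ 2 * (1 + e) * K + 1 ≤ g := by
    have h1 : e + 1 ≤ 3 * v := by omega
    have h2 : 2 * (1 + e) * K ≤ 6 * (v * K) := by nlinarith
    have h3 : v * (n + 1) = 14 * (v * K) + 11 * v := by rw [hn]; ring
    exact ⟨v * (n + 1) - e, by omega, by omega⟩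
  have eN : 2 ^ e ≤ N := (Nat.pow_le_pow_right two_pos (by omega)).trans v1
  have Ke : K * (2 ^ w * 2 ^ w) ≤ 2 ^ e := by
    rw [he, pow_add, two_mul, pow_add]
    exact Nat.mul_le_mul_right _ Nat.lt_two_pow_self.le
  have w0 : 0 < 2 ^ w := by positivity
  have wN : 2 ^ w ≤ N := (Nat.pow_le_pow_right two_pos (by omega)).trans eN
  have cnt := count (N := N) (e := e) (g := g) (by omega) (by
    have := Nat.lt_two_pow_self (n := e); omega) S2 (hg ▸ v1) (by omega) (by omega)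
  have yN : N / 2 ^ e * 2 ^ e ≤ N := Nat.div_mul_le_self _ _
  have yN' : N / 2 ^ e ≤ N := Nat.div_le_self _ _
  generalize N / 2 ^ e = y at *
  have dP : ∀ m ∈ PP K N y S, m ∣ K.factorial ^ 3 * 2 ^ w * T1 K N := fun m hm => PP_dvd w hm
  have hP : ∀ m ∈ PP K N y S, (0 < m ∧ m ≤ N) ∧ N < K * m ∧ (∀ q ∈ S, ¬q ∣ m) ∧
      ∀ p, p.Prime → p ∣ m → p ≤ y := fun m hm => by
    simp only [PP, mem_filter, mem_Ioc] at hm
    exact ⟨hm.1, hm.2.1, hm.2.2.1, hm.2.2.2.1⟩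
  generalize PP K N y S = P at *
  have cF : ∀ p, p.Prime → 2 < p → (∀ i ≤ n, p ≠ l i) → ∀ i ≤ n, ∀ t, (l i * 2 ^ t).Coprime p :=
    fun p hp h2 h i hi t =>
      ((Nat.coprime_primes (l1 i) hp).2 (h i hi).symm).mul_left (cp_two hp h2 t)
  have LN : N ≤ ∏ i ∈ range (n + 1), l i := by
    refine v2.trans ?_
    rw [pow_mul]
    simpa using pow_card_le_prod (range (n + 1)) l _ fun i _ => (l4 i).le
  obtain ⟨E, E1, E2⟩ := stage ((range (y + 1)).filter fun p => p.Prime ∧ K < p ∧ p ∉ S ∧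
      ∀ i ≤ n, p ≠ l i) (fun m => ∃ i ≤ n, ∃ t ≤ w, m = l i * 2 ^ t)
    ((∏ i ∈ range (n + 1), l i) * 2 ^ w) (n * ∏ i ∈ range (n + 1), l i) (∏ i ∈ range (n + 1), l i)
    (Nat.mul_pos (prod_pos fun i _ => (l1 i).pos) w0)
    (fun u h1 h2 => cover l (fun i => ⟨l1 i, by have := l4 i; omega⟩) inj w (n + 1) (by
      have := Nat.mul_le_mul (Nat.succ_le_of_lt (Nat.lt_two_pow_self (n := n))) (l3 0)
      refine this.trans (le_of_eq ?_)
      rw [hw]; ring) n lw u h1 (by linarith)) (rs P) (fun p hp => by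
      obtain ⟨h1, pp, h2, -, h3⟩ := mem_filter.1 hp
      have h1 := mem_range.1 h1
      refine ⟨pp, by omega, (Nat.Coprime.prod_left fun i hi => (Nat.coprime_primes (l1 i) pp).2
        (h3 i (by have := mem_range.1 hi; omega)).symm).mul_left (cp_two pp (by omega) _), ?_,
        Tsplit w (by omega) pp h2 (by omega) (rs_dv dP)⟩
      rintro m ⟨i, hi, t, -, rfl⟩
      exact cF p pp (by omega) h3 i hi t)
  have hE : ∀ x ∈ E, ∃ p i t, p.Prime ∧ K < p ∧ p ≤ y ∧ p ∉ S ∧ (∀ i ≤ n, p ≠ l i) ∧ i ≤ n ∧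
      t ≤ w ∧ x = p * (l i * 2 ^ t) := fun x hx => by
    obtain ⟨p, hp, m, ⟨i, hi, t, ht, rfl⟩, rfl⟩ := E1 x hx
    obtain ⟨h1, pp, h2, h3, h4⟩ := mem_filter.1 hp
    exact ⟨p, i, t, pp, h2, by have := mem_range.1 h1; omega, h3, h4, hi, ht, rfl⟩
  have lT : ∀ i ≤ n, l i ∣ T1 K N := fun i hi =>
    dvd_T1 (l1 i) (by have := l4 i; omega) ((lw i hi).trans wN)
  have dE : ∀ x ∈ E, x ∣ K.factorial ^ 3 * 2 ^ w * T1 K N := fun x hx => by
    obtain ⟨p, i, t, pp, h1, h2, -, h3, hi, ht, rfl⟩ := hE x hx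
    rw [← mul_assoc, mul_comm]
    exact Nat.mul_dvd_mul ((pow_dvd_pow 2 ht).mul_left _) (Nat.Coprime.mul_dvd_of_dvd_of_dvd
      ((Nat.coprime_primes pp (l1 i)).2 (h3 i hi)) (dvd_T1 pp h1 (by omega)) (lT i hi))
  obtain ⟨G, G1, G2⟩ := stage ((range (n + 1)).image l) (fun m => ∃ t, 1 ≤ t ∧ t ≤ w ∧ m = 2 ^ t)
    (2 ^ w) 0 (2 ^ w) w0 (fun u _ h2 => by simpa using bin w u (by omega)) (rs P + rs E)
    (fun p hp => by
      obtain ⟨i, hi, rfl⟩ := mem_image.1 hp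
      have hi := Nat.le_of_lt_succ (mem_range.1 hi)
      have := l4 i
      refine ⟨l1 i, lw i hi, cp_two (l1 i) (by omega) _, ?_, Tsplit w (by omega) (l1 i) (by omega)
        ((lw i hi).trans wN) (dv_add (rs_dv dP) (rs_dv dE))⟩
      rintro m ⟨t, -, -, rfl⟩
      exact cp_two (l1 i) (by omega) _)
  have hG : ∀ x ∈ G, ∃ i t, i ≤ n ∧ t ≤ w ∧ x = l i * 2 ^ t := fun x hx => by
    obtain ⟨p, hp, m, ⟨t, -, ht, rfl⟩, rfl⟩ := G1 x hx
    obtain ⟨i, hi, rfl⟩ := mem_image.1 hp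
    exact ⟨i, t, Nat.le_of_lt_succ (mem_range.1 hi), ht, rfl⟩
  have dG : ∀ x ∈ G, x ∣ K.factorial ^ 3 * 2 ^ w * T1 K N := fun x hx => by
    obtain ⟨i, t, hi, ht, rfl⟩ := hG x hx
    rw [mul_comm]
    exact Nat.mul_dvd_mul ((pow_dvd_pow 2 ht).mul_left _) (lT i hi)
  have cG : ∀ p, p.Prime → 2 < p → (∀ i ≤ n, p ≠ l i) → ∀ x ∈ G, x.Coprime p :=
    fun p hp h2 h x hx => by
      obtain ⟨i, t, hi, -, rfl⟩ := hG x hx
      exact cF p hp h2 h i hi t
  have cE : ∀ p, p.Prime → 2 < p → (∀ i ≤ n, p ≠ l i) → (p ∈ S ∨ y < p) → ∀ x ∈ E, x.Coprime p :=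
    fun p hp h2 h h3 x hx => by
      obtain ⟨q, i, t, pq, -, h4, h5, -, hi, -, rfl⟩ := hE x hx
      refine ((Nat.coprime_primes pq hp).2 ?_).mul_left (cF p hp h2 h i hi t)
      rintro rfl
      rcases h3 with h3 | h3
      exacts [h5 h3, by omega]
  have cP : ∀ p, p.Prime → (p ∈ S ∨ y < p) → ∀ x ∈ P, x.Coprime p := fun p hp h x hx =>
    (hp.coprime_iff_not_dvd.2 fun h2 => h.elim (fun h => (hP x hx).2.2.1 p h h2)
      fun h => absurd ((hP x hx).2.2.2 p hp h2) (by omega)).symm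
  have den : (rs P + rs E + rs G).den ∣ K.factorial ^ 3 * 2 ^ w := by
    refine Nat.Coprime.dvd_of_dvd_mul_right (Nat.Coprime.prod_right fun p hp => ?_)
      (dv_add (dv_add (rs_dv dP) (rs_dv dE)) (rs_dv dG))
    obtain ⟨h1, pp⟩ := mem_filter.1 hp
    have h1 := (mem_Ioc.1 h1).1
    by_cases h2 : ∀ i ≤ n, p ≠ l i
    · refine cp_add ?_ (rs_cp (cG p pp (by omega) h2))
      by_cases h3 : p ∈ S ∨ y < p
      · exact cp_add (rs_cp (cP p pp h3)) (rs_cp (cE p pp (by omega) h2 h3))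
      · rw [not_or, not_lt] at h3
        exact E2 p (mem_filter.2 ⟨mem_range.2 (by omega), pp, h1, h3.1, h2⟩)
    · push Not at h2
      obtain ⟨i, hi, rfl⟩ := h2
      exact G2 _ (mem_image_of_mem _ (mem_range.2 (by omega)))
  have sm : ∀ i ≤ n, ∀ t ≤ w, l i * 2 ^ t ≤ 2 ^ w * 2 ^ w := fun i hi t ht =>
    Nat.mul_le_mul (lw i hi) (Nat.pow_le_pow_right two_pos ht)
  have hEG : ∀ x ∈ E ∪ G, 0 < x ∧ K * x ≤ N ∧ ∃ i ≤ n, l i ∣ x := fun x hx => by
    rcases mem_union.1 hx with h | h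
    · obtain ⟨p, i, t, pp, -, h2, -, -, hi, ht, rfl⟩ := hE x h
      refine ⟨Nat.mul_pos pp.pos (Nat.mul_pos (l1 i).pos (by positivity)), ?_, i, hi,
        (dvd_mul_right _ _).mul_left _⟩
      rw [mul_left_comm]
      exact (Nat.mul_le_mul h2 ((Nat.mul_le_mul_left _ (sm i hi t ht)).trans Ke)).trans yN
    · obtain ⟨i, t, hi, ht, rfl⟩ := hG x h
      exact ⟨Nat.mul_pos (l1 i).pos (by positivity),
        ((Nat.mul_le_mul_left _ (sm i hi t ht)).trans Ke).trans eN, i, hi, dvd_mul_right _ _⟩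
  have d1 : Disjoint E G := disjoint_left.2 fun x hx h => by
    obtain ⟨p, i, t, pp, h1, -, -, h3, -, -, rfl⟩ := hE x hx
    exact ncp pp.one_lt (dvd_mul_right _ _) (cG p pp (by omega) h3 _ h)
  have Nq : (0 : ℚ) < N := by exact_mod_cast w0.trans_le wN
  have b1 : rs P ≤ K := by
    refine (sum_le_card_nsmul _ _ ((K : ℚ) / N) fun x hx => ?_).trans ?_
    · rw [div_le_div_iff₀ (by exact_mod_cast (hP x hx).1.1) Nq, one_mul]
      exact_mod_cast (hP x hx).2.1.le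
    · have : P.card ≤ N := (card_le_card (t := Ioc 0 N) fun x hx => mem_Ioc.2 (hP x hx).1).trans
        (by simp)
      rw [nsmul_eq_mul, ← mul_div_assoc, div_le_iff₀ Nq, mul_comm]
      gcongr
  have b2 : rs (E ∪ G) ≤ (n + 1) * (n + 2) := by
    have s : E ∪ G ⊆ (range (n + 1) ×ˢ Icc 1 N).image fun x => l x.1 * x.2 := fun x hx => by
      obtain ⟨h0, h1, i, hi, m, rfl⟩ := hEG x hx
      refine mem_image.2 ⟨(i, m), mem_product.2 ⟨mem_range.2 (by omega), mem_Icc.2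
        ⟨Nat.pos_of_mul_pos_left h0, ?_⟩⟩, rfl⟩
      exact (Nat.le_mul_of_pos_left _ (l1 i).pos).trans
        ((Nat.le_mul_of_pos_left _ (by omega)).trans h1)
    refine (sum_le_sum_of_subset_of_nonneg s fun _ _ _ => by positivity).trans
      ((sum_image_le_of_nonneg fun _ _ => by positivity).trans ?_)
    rw [sum_product]
    refine (sum_le_card_nsmul _ _ (n + 2 : ℚ) fun i _ => ?_).trans (by simp; linarith)
    have h1 := hlog v2
    have h2 : (v : ℚ) + 1 ≤ l i := by exact_mod_cast (vv.trans (l4 i)).le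
    have h3 : (0 : ℚ) ≤ v := Nat.cast_nonneg _
    have h4 : (0 : ℚ) ≤ n := Nat.cast_nonneg _
    simp only [Nat.cast_mul, ← div_div, div_right_comm 1 (l i : ℚ), ← sum_div]
    rw [div_le_iff₀ (by linarith)]
    push_cast at h1
    nlinarith
  have eu := rs_union d1
  obtain ⟨H, H1, H2⟩ := C2 w (rs Q - (rs P + rs E + rs G)) (by linarith) (by
    linarith [rs_nonneg P, rs_nonneg E, rs_nonneg G]) (by
    rw [sub_eq_add_neg, mul_assoc]
    exact (Rat.add_den_dvd _ _).trans (Nat.mul_dvd_mul_left _ (by rwa [Rat.neg_den])))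
  have Cw : 0 < C * 2 ^ w := Nat.mul_pos C0 w0
  have hH : ∀ x ∈ H, 0 < x ∧ K * x ≤ N := fun x hx =>
    ⟨Nat.pos_of_dvd_of_pos (H2 x hx) Cw, ((Nat.mul_le_mul_left _ ((Nat.le_of_dvd Cw (H2 x hx)).trans
      (Nat.mul_le_mul_right _ (by have := Nat.lt_two_pow_self (n := w); omega)))).trans Ke).trans eN⟩
  have d2 : Disjoint (E ∪ G) H := disjoint_left.2 fun x hx h => by
    obtain ⟨-, -, i, hi, h2⟩ := hEG x hx
    have := l4 i
    have := Nat.le_of_dvd C0 ((cp_two (l1 i) (by omega) w).symm.dvd_of_dvd_mul_right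
      (h2.trans (H2 x h)))
    omega
  have h5 : ∀ x ∈ E ∪ G ∪ H, 0 < x ∧ K * x ≤ N := fun x hx =>
    (mem_union.1 hx).elim (fun h => ⟨(hEG x h).1, (hEG x h).2.1⟩) (hH x)
  have d3 : Disjoint P (E ∪ G ∪ H) := disjoint_left.2 fun x hx h =>
    absurd (h5 x h).2 (not_le.2 (hP x hx).2.1)
  have h6 : ∀ x ∈ P ∪ (E ∪ G ∪ H), 0 < x ∧ x.Coprime R := fun x hx => by
    refine ⟨(mem_union.1 hx).elim (fun h => (hP x h).1.1) fun h => (h5 x h).1, ?_⟩
    have nl : ∀ q ∈ S, ∀ i ≤ n, q ≠ l i := fun q hq i _ => by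
      have := qR q hq; have := l4 i; omega
    have q2 : ∀ q ∈ S, 2 < q := fun q hq => by have := (S1 q hq).2; omega
    simp only [mem_union] at hx
    rcases hx with h | (h | h) | h
    · exact cR x fun q hq => cP q (S1 q hq).1 (Or.inl hq) x h
    · exact cR x fun q hq => cE q (S1 q hq).1 (q2 q hq) (nl q hq) (Or.inl hq) x h
    · exact cR x fun q hq => cG q (S1 q hq).1 (q2 q hq) (nl q hq) x h
    · exact (C1.mul_left (cR _ fun q hq => cp_two (S1 q hq).1 (q2 q hq) w)).coprime_dvd_left (H2 x h)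
  refine ⟨P ∪ (E ∪ G ∪ H) ∪ Q, fun x hx => mem_Icc.2 ?_, adm (disjoint_left.2 fun x hx h => ?_) h6
    (by rw [rs_union d3, rs_union d2, eu, H1]; ring) Q4, cnt.trans ?_⟩
  · rcases mem_union.1 hx with h | h
    · rcases mem_union.1 h with h | h
      · exact (hP x h).1
      · exact ⟨(h5 x h).1, (Nat.le_mul_of_pos_left _ (by omega)).trans (h5 x h).2⟩
    · exact ⟨(Q1 x h).1, (le_sup (f := id) h).trans ((Nat.le_add_left _ _).trans hN)⟩
  · obtain ⟨q, hq, h2⟩ := (Q1 x h).2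
    exact ncp (S1 q hq).1.one_lt h2 ((h6 x hx).2.coprime_dvd_right (Rq q hq))
  · gcongr
    exact subset_union_left.trans subset_union_left

end Pool.Agent.H.MP_47c171_nt
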